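import Mathlib

/-!
# Tiles inside a box (MP_13da68_co): definitions
-/

set_option autoImplicit false

namespace Pool.Agent.Q229.TC

/-- the box `[n]^d = {1, ..., n}^d` -/
noncomputable def ibox (n d : ℕ) : Finset (Fin d → ℤ) := Fintype.piFinset fun _ => Finset.Icc 1 (n : ℤ)

/-- `S` tiles `ℤ^d` by translations: there is `T` such that every `x` is `s + t` with `s ∈ S`, `t ∈ T` in exactly
one way -/
def TilesByTranslations {d : ℕ} (S : Finset (Fin d → ℤ)) : Prop :=
  ∃ T : Set (Fin d → ℤ), ∀ x, ∃! p : (Fin d → ℤ) × (Fin d → ℤ), p.1 ∈ S ∧ p.2 ∈ T ∧ p.1 + p.2 = x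

open Classical in
/-- `t_{n,d}`: the number of subsets of `[n]^d` that tile `ℤ^d` by translations -/
noncomputable def t (n d : ℕ) : ℕ := ((ibox n d).powerset.filter fun S => TilesByTranslations S).card

end Pool.Agent.Q229.TC
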